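import Pool.Agent.H598.LB.Cor

/-!
# A linear bound in Waring's problem for polynomial rings over finite fields
-/

namespace Pool.Agent.Results.MP_570bef_nt.FunctionFieldLinear

open Polynomial

/-- The polynomial `m` is a strict sum of `s` `k`-th powers: `m = ∑ x i ^ k`, where the degree of
each `x i ^ k` is less than `deg m + k`. -/
def StrictSum {F : Type*} [Field F] (k s : ℕ) (m : F[X]) : Prop :=
  ∃ x : Fin s → F[X], (∀ i, k * (x i).natDegree < m.natDegree + k) ∧ ∑ i, x i ^ k = m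

/-- Every polynomial over `F` of sufficiently large degree is a strict sum of `s` `k`-th
powers. -/
def AllLarge (F : Type*) [Field F] (k s : ℕ) : Prop :=
  ∃ N : ℕ, ∀ m : F[X], N ≤ m.natDegree → StrictSum k s m

open Pool.Agent.H598.LB Pool.Agent.H598.TK in
lemma main {k L : ℕ} (hk : 2 ≤ k) (F : Type*) [Field F] [Fintype F] (hchar : k < ringChar F)
    (hq : 128 * k ^ 6 ≤ Fintype.card F)
    (h : 6 * (k : ℝ) * Real.log (2 * k) ≤ Real.exp L * Real.log (Fintype.card F)) :
    AllLarge F k ((9 + 3 * L) * k) := by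
  have e : (9 + 3 * L) * k = 9 * k + 3 * (L * k) := by ring
  rw [e]
  exact strict_of hk (rep_lin hk (choose_ne (by omega) hchar) hq
    (cond_log hk Fintype.card_pos h))

/-- In all parts `k ≥ 2` and `F` is a finite field with `q ≥ 128 k ^ 6` elements; in (1), (2), (3)
the characteristic of `F` is larger than `k`.

(1) If `6 k log (2k) ≤ e ^ L log q`, then every polynomial over `F` of sufficiently large degree is
a strict sum of `(9 + 3 L) k` `k`-th powers.

(2) If `6 k log (2k) ≤ 10 ^ 13 log q`, then `99 k` `k`-th powers suffice; this includes all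
`k ≤ 10 ^ 13`.

(3) Linear bounds: for every `δ > 0` there is `C`, depending only on `δ`, such that `C k` `k`-th
powers suffice whenever `log q ≥ δ k log k`.

(4) If no binomial coefficient `k.choose a` with `a ≤ k` vanishes in `F` and
`(2k) ^ (6 k (k - 1) ^ ℓ) ≤ q ^ (k ^ ℓ)`, then `9 k + 3 ℓ` `k`-th powers suffice. -/
theorem result :
    (∀ (k L : ℕ), 2 ≤ k → ∀ (F : Type*) [Field F] [Fintype F], k < ringChar F →
      128 * k ^ 6 ≤ Fintype.card F →
      6 * (k : ℝ) * Real.log (2 * k) ≤ Real.exp L * Real.log (Fintype.card F) →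
      AllLarge F k ((9 + 3 * L) * k)) ∧
    (∀ (k : ℕ), 2 ≤ k → ∀ (F : Type*) [Field F] [Fintype F], k < ringChar F →
      128 * k ^ 6 ≤ Fintype.card F →
      (k ≤ 10 ^ 13 ∨ 6 * (k : ℝ) * Real.log (2 * k) ≤ 10 ^ 13 * Real.log (Fintype.card F)) →
      AllLarge F k (99 * k)) ∧
    (∀ δ : ℝ, 0 < δ → ∃ C : ℕ, ∀ (k : ℕ), 2 ≤ k → ∀ (F : Type*) [Field F] [Fintype F],
      k < ringChar F → 128 * k ^ 6 ≤ Fintype.card F →
      δ * (k : ℝ) * Real.log k ≤ Real.log (Fintype.card F) →
      AllLarge F k (C * k)) ∧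
    (∀ (k ℓ : ℕ), 2 ≤ k → ∀ (F : Type*) [Field F] [Fintype F],
      (∀ a, a ≤ k → ((k.choose a : ℕ) : F) ≠ 0) → 128 * k ^ 6 ≤ Fintype.card F →
      (2 * k) ^ (6 * k * (k - 1) ^ ℓ) ≤ Fintype.card F ^ (k ^ ℓ) →
      AllLarge F k (9 * k + 3 * ℓ)) := by
  refine ⟨?_, ?_, ?_, ?_⟩
  · intro k L hk F _ _ hchar hq h
    exact main hk F hchar hq h
  · intro k hk F _ _ hchar hq h
    have h1 : 6 * (k : ℝ) * Real.log (2 * k) ≤ 10 ^ 13 * Real.log (Fintype.card F) := by
      rcases h with h | h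
      · exact Pool.Agent.H598.LB.small_exp hk h hq
      · exact h
    have h2 : 0 ≤ Real.log (Fintype.card F) :=
      Real.log_nonneg (by exact_mod_cast Fintype.card_pos)
    exact main (L := 30) hk F hchar hq
      (le_trans h1 (mul_le_mul_of_nonneg_right Pool.Agent.H598.LB.exp_thirty h2))
  · intro δ hδ
    obtain ⟨L, hL⟩ := Pool.Agent.H598.LB.delta_exp hδ
    refine ⟨9 + 3 * L, fun k hk F _ _ hchar hq h => ?_⟩
    exact main hk F hchar hq (hL k (Fintype.card F) hk h)
  · intro k ℓ hk F _ _ hch hq h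
    exact Pool.Agent.H598.LB.strict_of hk (Pool.Agent.H598.LB.rep_lin hk hch hq h)

end Pool.Agent.Results.MP_570bef_nt.FunctionFieldLinear
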